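import Mathlib

/-!
# Arborescences in balanced digraphs

`R` is the type of edges (ribbons or chords), `up r` and `down r` are the rims above and below
the ribbon.  If every rim is above as many ribbons as it is below, and the rims are connected
through the ribbons, then every rim reaches every other rim by going down, and there is a spanning
arborescence: a choice of a ribbon below every rim other than the root that leads to the root.
-/

namespace Pool.Agent.Helper48.UNF

variable {R V : Type*} [Finite R]

/-- A balanced digraph has a permutation of its edges that follows the edges upwards. -/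
lemma exists_follow {up down : R → V}
    (hbal : ∀ v, Nat.card {r // up r = v} = Nat.card {r // down r = v}) :
    ∃ e : Equiv.Perm R, ∀ r, down (e r) = up r := by
  classical
  have h : ∀ v, Nonempty ({r // up r = v} ≃ {r // down r = v}) := fun v =>
    Finite.card_eq.1 (hbal v)
  refine ⟨(Equiv.sigmaFiberEquiv up).symm.trans
    ((Equiv.sigmaCongrRight fun v => (h v).some).trans (Equiv.sigmaFiberEquiv down)), fun r => ?_⟩
  exact ((h (up r)).some ⟨r, rfl⟩).2

/-- A set that is closed under going down along the edges is closed under going up. -/
lemma closed_of_follow {up down : R → V} {e : Equiv.Perm R} (he : ∀ r, down (e r) = up r)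
    {S : V → Prop} (hS : ∀ r, S (up r) → S (down r)) (r : R) (h : S (down r)) : S (up r) := by
  -- `S (down ·)` is preserved by the inverse of `e`, hence by `e`
  have h1 : ∀ (n : ℕ) (r : R), S (down ((e ^ n) r)) → S (down r) := by
    intro n
    induction n with
    | zero => intro r h; simpa using h
    | succ n ih =>
      intro r h
      rw [pow_succ, Equiv.Perm.mul_apply] at h
      have h2 := ih (e r) h
      rw [he] at h2
      exact hS r h2
  have ho : 0 < orderOf e := orderOf_pos e
  have h3 := h1 (orderOf e - 1) (e r) (by
    rw [← Equiv.Perm.mul_apply, ← pow_succ, Nat.sub_add_cancel ho, pow_orderOf_eq_one]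
    exact h)
  rw [he] at h3
  exact h3

/-- A rim that can be reached from `v` by going down along `n` edges is the root. -/
inductive Reach (up down : R → V) (root : V) : ℕ → V → Prop
  | refl : Reach up down root 0 root
  | step (n : ℕ) (r : R) : Reach up down root n (down r) → Reach up down root (n + 1) (up r)

/-- **Arborescence.**  In a balanced connected digraph every vertex other than the root has an edge
down to a vertex that is closer to the root. -/
theorem exists_arborescence_of_follow {up down : R → V} {e : Equiv.Perm R}
    (he : ∀ r, down (e r) = up r)
    (hconn : ∀ ψ : V → Prop, (∀ r, ψ (up r) ↔ ψ (down r)) → ∀ v w, ψ v → ψ w) (root : V) :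
    ∃ d : V → ℕ, ∀ v, v ≠ root → ∃ r, up r = v ∧ d (down r) < d v := by
  classical
  have hall : ∀ v, ∃ n, Reach up down root n v := by
    intro v
    refine hconn (fun v => ∃ n, Reach up down root n v) ?_ root v ⟨0, Reach.refl⟩
    -- the complement is closed under going down, hence under going up
    intro r
    constructor
    · intro h
      by_contra hcon
      exact closed_of_follow he (S := fun v => ¬ ∃ n, Reach up down root n v)
        (fun r' h' h'' => h' (h''.elim fun n hn => ⟨n + 1, Reach.step n r' hn⟩)) r hcon h
    · rintro ⟨n, hn⟩
      exact ⟨n + 1, Reach.step n r hn⟩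
  refine ⟨fun v => sInf {n | Reach up down root n v}, fun v hv => ?_⟩
  have h1 : Reach up down root (sInf {n | Reach up down root n v}) v := Nat.sInf_mem (hall v)
  generalize hk : sInf {n | Reach up down root n v} = k at h1
  cases h1 with
  | refl => exact absurd rfl hv
  | step n r h2 =>
    refine ⟨r, rfl, ?_⟩
    have h3 : sInf {n | Reach up down root n (down r)} ≤ n := Nat.sInf_le h2
    show sInf {n | Reach up down root n (down r)} < sInf {n | Reach up down root n (up r)}
    rw [hk]
    omega

theorem exists_arborescence {up down : R → V}
    (hbal : ∀ v, Nat.card {r // up r = v} = Nat.card {r // down r = v})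
    (hconn : ∀ ψ : V → Prop, (∀ r, ψ (up r) ↔ ψ (down r)) → ∀ v w, ψ v → ψ w) (root : V) :
    ∃ d : V → ℕ, ∀ v, v ≠ root → ∃ r, up r = v ∧ d (down r) < d v := by
  obtain ⟨e, he⟩ := exists_follow hbal
  exact exists_arborescence_of_follow he hconn root

end Pool.Agent.Helper48.UNF
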