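import Mathlib

/-!
# Switching lemmas for closed curves

A (multi-)curve is a finite type `X` of flags (a flag is an end of a piece of the curve) with two
fixed point free involutions: `m` goes to the other end of the same piece, `p` goes to the flag
that is glued to this one.  The components of the curve are the classes of the equivalence
relation generated by `m` and `p`.  All statements are in *invariant form*: a predicate `ψ` that is
invariant under all links of the curve is constant.
-/

namespace Pool.Agent.Helper48.UNF

section Parity

variable {X : Type*} [Finite X]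

/-- A set closed under a fixed point free involution has an even number of elements. -/
lemma even_ncard_of_invol (S : Set X) (m : X → X) (h1 : ∀ x ∈ S, m x ∈ S)
    (h2 : ∀ x ∈ S, m (m x) = x) (h3 : ∀ x ∈ S, m x ≠ x) : Even S.ncard := by
  classical
  have hS : S.Finite := S.toFinite
  have key : ∑ _x ∈ hS.toFinset, (1 : ZMod 2) = 0 := by
    apply Finset.sum_involution (fun x _ => m x)
    · intro x _
      decide
    · intro x hx _
      exact h3 x (by simpa using hx)
    · intro x hx
      simpa using h1 x (by simpa using hx)
    · intro x hx
      exact h2 x (by simpa using hx)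
  rw [Finset.sum_const, nsmul_eq_mul, mul_one, ← Set.ncard_eq_toFinset_card S hS] at key
  rwa [ZMod.natCast_eq_zero_iff_even] at key

/-- **Parity lemma.**  Cutting a curve at one link leaves the two ends of the link on the same
component. -/
lemma parity_cut {m p : X → X} (hm : ∀ x, m (m x) = x) (hm0 : ∀ x, m x ≠ x)
    (hp : ∀ x, p (p x) = x) (hp0 : ∀ x, p x ≠ x) {Z : Set X} {a : X} (ha : a ∈ Z)
    (hZm : ∀ x ∈ Z, m x ∈ Z) (hZp : ∀ x ∈ Z, x ≠ a → p x ∈ Z) : p a ∈ Z := by
  by_contra hpa
  have h1 : Even Z.ncard := even_ncard_of_invol Z m hZm (fun x _ => hm x) (fun x _ => hm0 x)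
  have h2 : Even (Z \ {a}).ncard := by
    apply even_ncard_of_invol _ p
    · rintro x ⟨hx, hxa⟩
      refine ⟨hZp x hx hxa, ?_⟩
      intro h
      have h' : p x = a := h
      apply hpa
      rw [← h', hp]
      exact hx
    · intro x _; exact hp x
    · intro x _; exact hp0 x
  have h3 : (Z \ {a}).ncard + 1 = Z.ncard := Set.ncard_sdiff_singleton_add_one ha Z.toFinite
  rw [← h3] at h1
  exact (Nat.even_add_one.1 h1) h2

end Parity

section Switch

variable {X B : Type*}

/-- The links of the curve with switches `t`: the links of `p`, except that in the band `b` with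
`t b = true` the two links of the band are crossed. -/
noncomputable def sw (q : B × Bool × Bool → X) (p : X → X) (t : B → Bool) (x : X) : X :=
  open Classical in
  if h : ∃ b s i, t b = true ∧ q (b, s, i) = x then
    q (h.choose, !h.choose_spec.choose, !h.choose_spec.choose_spec.choose)
  else p x

variable {q : B × Bool × Bool → X} {p : X → X} {t : B → Bool}

lemma sw_true (hq : Function.Injective q) {b : B} (hb : t b = true) (s i : Bool) :
    sw q p t (q (b, s, i)) = q (b, !s, !i) := by
  have h : ∃ b' s' i', t b' = true ∧ q (b', s', i') = q (b, s, i) := ⟨b, s, i, hb, rfl⟩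
  unfold sw
  rw [dif_pos h]
  have h1 := h.choose_spec.choose_spec.choose_spec.2
  have h2 := hq h1
  rw [Prod.mk.injEq, Prod.mk.injEq] at h2
  obtain ⟨e1, e2, e3⟩ := h2
  congr 1
  rw [Prod.mk.injEq, Prod.mk.injEq]
  exact ⟨e1, congrArg (fun b => !b) e2, congrArg (fun b => !b) e3⟩

lemma sw_false (hq : Function.Injective q) (hpq : ∀ b s i, p (q (b, s, i)) = q (b, !s, i)) {b : B}
    (hb : t b = false) (s i : Bool) : sw q p t (q (b, s, i)) = q (b, !s, i) := by
  have h : ¬ ∃ b' s' i', t b' = true ∧ q (b', s', i') = q (b, s, i) := by
    rintro ⟨b', s', i', h1, h2⟩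
    have h3 := hq h2
    rw [Prod.mk.injEq] at h3
    rw [h3.1, hb] at h1
    exact absurd h1 (by simp)
  unfold sw
  rw [dif_neg h, hpq]

lemma sw_q (hq : Function.Injective q) (hpq : ∀ b s i, p (q (b, s, i)) = q (b, !s, i)) (b : B)
    (s i : Bool) : sw q p t (q (b, s, i)) = q (b, !s, xor i (t b)) := by
  cases hb : t b with
  | false => rw [sw_false hq hpq hb]; simp
  | true => rw [sw_true hq hb]; simp

lemma sw_other {x : X} (hx : ∀ b s i, q (b, s, i) ≠ x) : sw q p t x = p x := by
  have h : ¬ ∃ b' s' i', t b' = true ∧ q (b', s', i') = x := by
    rintro ⟨b', s', i', -, h2⟩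
    exact hx _ _ _ h2
  unfold sw
  rw [dif_neg h]

lemma sw_invol (hq : Function.Injective q) (hpq : ∀ b s i, p (q (b, s, i)) = q (b, !s, i))
    (hp : ∀ x, p (p x) = x) (x : X) : sw q p t (sw q p t x) = x := by
  by_cases hx : ∃ b s i, q (b, s, i) = x
  · obtain ⟨b, s, i, rfl⟩ := hx
    rw [sw_q hq hpq, sw_q hq hpq]
    simp
  · push Not at hx
    have hx' : ∀ b s i, q (b, s, i) ≠ p x := by
      intro b s i h
      apply hx b (!s) i
      rw [← hpq, h, hp]
    rw [sw_other hx, sw_other hx', hp]

lemma sw_ne (hq : Function.Injective q) (hpq : ∀ b s i, p (q (b, s, i)) = q (b, !s, i))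
    (hp0 : ∀ x, p x ≠ x) (x : X) : sw q p t x ≠ x := by
  by_cases hx : ∃ b s i, q (b, s, i) = x
  · obtain ⟨b, s, i, rfl⟩ := hx
    rw [sw_q hq hpq]
    intro h
    have h1 := hq h
    rw [Prod.mk.injEq, Prod.mk.injEq] at h1
    have h2 := h1.2.1
    revert h2
    cases s <;> simp
  · push Not at hx
    rw [sw_other hx]
    exact hp0 x

/-- The components of the curve with links `m` and `p`. -/
def cls (m p : X → X) : Setoid X :=
  Relation.EqvGen.setoid fun x y => y = m x ∨ y = p x

lemma cls_m {m p : X → X} (x : X) : (cls m p) x (m x) := Relation.EqvGen.rel _ _ (Or.inl rfl)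

lemma cls_p {m p : X → X} (x : X) : (cls m p) x (p x) := Relation.EqvGen.rel _ _ (Or.inr rfl)

lemma cls_le {m p : X → X} {S : Setoid X} (h1 : ∀ x, S x (m x)) (h2 : ∀ x, S x (p x)) :
    cls m p ≤ S := by
  intro x y h
  have h' : Relation.EqvGen (fun x y => y = m x ∨ y = p x) x y := h
  clear h
  induction h' with
  | rel x y h =>
    rcases h with h | h
    · rw [h]; exact h1 x
    · rw [h]; exact h2 x
  | refl x => exact S.refl' x
  | symm x y _ ih => exact S.symm' ih
  | trans x y z _ _ ih1 ih2 => exact S.trans' ih1 ih2

/-- A predicate that is invariant under the links is invariant on the components. -/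
lemma cls_inv {m p : X → X} {ψ : X → Prop} (h1 : ∀ x, ψ x ↔ ψ (m x)) (h2 : ∀ x, ψ x ↔ ψ (p x))
    {x y : X} (h : (cls m p) x y) : ψ x ↔ ψ y := by
  have : cls m p ≤ Setoid.ker ψ := by
    apply cls_le
    · intro x
      rw [Setoid.ker_def]
      exact propext (h1 x)
    · intro x
      rw [Setoid.ker_def]
      exact propext (h2 x)
  have h3 := this h
  rw [Setoid.ker_def] at h3
  rw [h3]

/-- **Switch lemma.**  If the two strands of a band are on different components, switching the band
merges these two components. -/
lemma cls_lt_switch [Finite X] [DecidableEq B] {m : X → X} (hm : ∀ x, m (m x) = x)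
    (hm0 : ∀ x, m x ≠ x) (hp : ∀ x, p (p x) = x) (hp0 : ∀ x, p x ≠ x)
    (hq : Function.Injective q) (hpq : ∀ b s i, p (q (b, s, i)) = q (b, !s, i)) (t : B → Bool)
    (b : B) (s : Bool) (hb : ¬ (cls m (sw q p t)) (q (b, s, false)) (q (b, s, true))) :
    cls m (sw q p t) < cls m (sw q p (Function.update t b (!t b))) := by
  set t' := Function.update t b (!t b) with ht'
  set C := cls m (sw q p t) with hC
  set C' := cls m (sw q p t') with hC'
  have htb : t' b = !t b := by rw [ht']; simp
  have hoth : ∀ b', b' ≠ b → t' b' = t b' := by
    intro b' h; rw [ht', Function.update_of_ne h]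
  have hinv := sw_invol (t := t) hq hpq hp
  have hne := sw_ne (t := t) hq hpq hp0
  -- the strands at both sides
  have hs : ∀ s', ¬ C (q (b, s', false)) (q (b, s', true)) := by
    intro s' h
    by_cases hs : s' = s
    · rw [hs] at h; exact hb h
    · have hs' : s' = !s := by
        revert hs; cases s <;> cases s' <;> simp
      subst hs'
      apply hb
      have h1 : ∀ i, C (q (b, s, i)) (q (b, !s, xor i (t b))) := by
        intro i
        have := cls_p (m := m) (p := sw q p t) (q (b, s, i))
        rw [sw_q hq hpq] at this
        exact this
      refine C.trans' (h1 false) (C.trans' ?_ (C.symm' (h1 true)))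
      cases t b
      · simpa using h
      · simpa using C.symm' h
  -- links outside of the band `b`
  have hlink : ∀ x, (∀ s i, q (b, s, i) ≠ x) → sw q p t' x = sw q p t x := by
    intro x hx
    by_cases hx' : ∃ b' s i, q (b', s, i) = x
    · obtain ⟨b', s', i', rfl⟩ := hx'
      have hbb : b' ≠ b := by
        intro h; subst h; exact hx s' i' rfl
      rw [sw_q hq hpq, sw_q hq hpq, hoth b' hbb]
    · push Not at hx'
      rw [sw_other hx', sw_other hx']
  -- the key connection: the old link is a connection of the new curve
  have hkey : ∀ s i, C' (q (b, s, i)) (sw q p t (q (b, s, i))) := by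
    intro s i
    set a := q (b, s, i) with ha
    -- the part of the new component that avoids the band
    let Z : Set X := {x | C' a x ∧ C a x ∧
      (Relation.EqvGen (fun x y => y = m x ∨ (y = sw q p t x ∧ ∀ s i, q (b, s, i) ≠ x ∧
        q (b, s, i) ≠ y)) a x)}
    have hZ : sw q p t a ∈ Z := by
      apply parity_cut hm hm0 hinv hne (Z := Z)
      · exact ⟨C'.refl' a, C.refl' a, Relation.EqvGen.refl a⟩
      · rintro x ⟨h1, h2, h3⟩
        exact ⟨C'.trans' h1 (cls_m x), C.trans' h2 (cls_m x),
          h3.trans _ _ _ (Relation.EqvGen.rel _ _ (Or.inl rfl))⟩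
      · rintro x ⟨h1, h2, h3⟩ hxa
        by_cases hx : ∃ s i, q (b, s, i) = x
        · obtain ⟨s', i', rfl⟩ := hx
          -- it must be the other end of the old link
          have h4 : q (b, s', i') = sw q p t a := by
            rw [ha, sw_q hq hpq]
            by_cases hs1 : s' = s
            · subst hs1
              exfalso
              have : i' = !i := by
                by_contra hi
                have : i' = i := by revert hi; cases i <;> cases i' <;> simp
                subst this
                exact hxa rfl
              subst this
              cases i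
              · exact hs _ h2
              · exact hs _ (C.symm' h2)
            · have hs2 : s' = !s := by revert hs1; cases s <;> cases s' <;> simp
              subst hs2
              by_cases hi : i' = xor i (t b)
              · rw [hi]
              · exfalso
                have h5 : C a (q (b, !s, xor i (t b))) := by
                  have := cls_p (m := m) (p := sw q p t) a
                  rw [ha, sw_q hq hpq] at this
                  exact this
                have h6 : C (q (b, !s, xor i (t b))) (q (b, !s, i')) := C.trans' (C.symm' h5) h2
                have : i' = !(xor i (t b)) := by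
                  revert hi; cases i' <;> cases i <;> cases t b <;> simp
                rw [this] at h6
                cases h7 : xor i (t b)
                · rw [h7] at h6; exact hs _ h6
                · rw [h7] at h6; exact hs _ (C.symm' h6)
          rw [h4, hinv]
          exact ⟨C'.refl' a, C.refl' a, Relation.EqvGen.refl a⟩
        · push Not at hx
          have hx2 : ∀ s i, q (b, s, i) ≠ sw q p t x := by
            intro s' i' h
            apply hx (!s') (xor i' (t b))
            rw [← sw_q (t := t) hq hpq, h, hinv]
          refine ⟨?_, C.trans' h2 (cls_p x),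
            h3.trans _ _ _ (Relation.EqvGen.rel _ _ (Or.inr ⟨rfl, fun s i => ⟨hx s i, hx2 s i⟩⟩))⟩
          rw [← hlink x hx]
          exact C'.trans' h1 (cls_p x)
    exact hZ.1
  constructor
  · apply cls_le
    · intro x; exact cls_m x
    · intro x
      by_cases hx : ∃ s i, q (b, s, i) = x
      · obtain ⟨s', i', rfl⟩ := hx
        exact hkey s' i'
      · push Not at hx
        rw [← hlink x hx]
        exact cls_p x
  · intro hle
    apply hb
    apply hle
    -- in the new curve the two strands are connected
    have h1 : C' (q (b, s, false)) (q (b, !s, t b)) := by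
      have := hkey s false
      rw [sw_q hq hpq] at this
      simpa using this
    have h2 : C' (q (b, s, true)) (q (b, !s, t b)) := by
      have := cls_p (m := m) (p := sw q p t') (q (b, s, true))
      rw [sw_q hq hpq, htb] at this
      simpa using this
    exact C'.trans' h1 (C'.symm' h2)

/-- **The switch theorem.**  The switches can be chosen in such a way that in every band the two
strands are on the same component. -/
theorem exists_switch [Finite X] [Finite B] {m p : X → X} (hm : ∀ x, m (m x) = x)
    (hm0 : ∀ x, m x ≠ x) (hp : ∀ x, p (p x) = x) (hp0 : ∀ x, p x ≠ x)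
    {q : B × Bool × Bool → X}
    (hq : Function.Injective q) (hpq : ∀ b s i, p (q (b, s, i)) = q (b, !s, i)) :
    ∃ t : B → Bool, ∀ ψ : X → Prop, (∀ x, ψ x ↔ ψ (m x)) →
      (∀ x, (∀ b s i, q (b, s, i) ≠ x) → (ψ x ↔ ψ (p x))) →
      (∀ b i, ψ (q (b, false, i)) ↔ ψ (q (b, true, xor i (t b)))) →
      ∀ b s, ψ (q (b, s, false)) ↔ ψ (q (b, s, true)) := by
  classical
  obtain ⟨t, ht⟩ := Set.Finite.exists_maximalFor (fun t : B → Bool => cls m (sw q p t)) Set.univ
    Set.finite_univ Set.univ_nonempty
  refine ⟨t, fun ψ h1 h2 h3 b s => ?_⟩
  have hC : (cls m (sw q p t)) (q (b, s, false)) (q (b, s, true)) := by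
    by_contra hcon
    have hlt := cls_lt_switch hm hm0 hp hp0 hq hpq t b s hcon
    exact absurd (ht.2 (Set.mem_univ (Function.update t b (!t b))) hlt.le) (not_le_of_gt hlt)
  refine cls_inv (ψ := ψ) h1 ?_ hC
  intro x
  by_cases hx : ∃ b s i, q (b, s, i) = x
  · obtain ⟨b', s', i', rfl⟩ := hx
    rw [sw_q hq hpq]
    cases s' with
    | false => exact h3 b' i'
    | true =>
      have := h3 b' (xor i' (t b'))
      simp only [Bool.xor_assoc, Bool.xor_self, Bool.xor_false] at this
      exact this.symm
  · push Not at hx
    rw [sw_other hx]
    exact h2 x hx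

end Switch

section Tree

variable {X V ι : Type*}

/-- A predicate on the cycle of `σ` through `c` that changes at most at `c` is constant. -/
lemma const_on_cycle [Finite X] (σ : Equiv.Perm X) (c : X) (ψ : X → Prop)
    (h : ∀ x, σ.SameCycle c x → x ≠ c → (ψ x ↔ ψ (σ x))) {x : X} (hx : σ.SameCycle c x) :
    ψ c ↔ ψ x := by
  classical
  have hper : 0 < orderOf σ := orderOf_pos σ
  -- all elements after `c` up to the next visit
  have key : ∀ n : ℕ, (ψ ((σ ^ (n + 1)) c) ↔ ψ (σ c)) ∨
      ∃ j ≤ n, (σ ^ (j + 1)) c = c ∧ (ψ c ↔ ψ (σ c)) := by
    intro n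
    induction n with
    | zero => left; simp
    | succ n ih =>
      rcases ih with ih | ⟨j, hj, h1, h2⟩
      · by_cases hc : (σ ^ (n + 1)) c = c
        · right
          refine ⟨n, by omega, hc, ?_⟩
          rw [hc] at ih
          exact ih
        · left
          have h1 := h ((σ ^ (n + 1)) c) ⟨((n + 1 : ℕ) : ℤ), by rw [zpow_natCast]⟩ hc
          rw [← ih, h1, ← Equiv.Perm.mul_apply, ← pow_succ']
      · right
        exact ⟨j, by omega, h1, h2⟩
  have hc : ψ c ↔ ψ (σ c) := by
    rcases key (orderOf σ - 1) with h1 | ⟨j, -, -, h2⟩
    · rw [Nat.sub_add_cancel hper, pow_orderOf_eq_one] at h1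
      exact h1
    · exact h2
  have hall : ∀ n : ℕ, ψ ((σ ^ n) c) ↔ ψ c := by
    intro n
    induction n with
    | zero => simp
    | succ n ih =>
      rw [pow_succ', Equiv.Perm.mul_apply]
      by_cases h1 : (σ ^ n) c = c
      · rw [h1]; exact hc.symm
      · rw [← h ((σ ^ n) c) ⟨(n : ℤ), by rw [zpow_natCast]⟩ h1]
        exact ih
  obtain ⟨n, -, hn⟩ := hx.exists_pow_eq'
  rw [← hn]
  exact (hall n).symm

/-- **Tree glue.**  Start with one closed loop (a cycle of `σ`) for every node and join loops by
links `α`; every node has at most one link that goes out to its parent, and the parent has a larger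
rank.  Then the curve, which runs along `σ ∘ α`, is one closed curve for every tree: every
invariant predicate is constant on every node and along every link. -/
theorem tree_glue [Finite X] [Preorder ι] (σ : Equiv.Perm X) (α : X → X) (hα : ∀ x, α (α x) = x)
    (node : X → V) (hnode : ∀ x, node (σ x) = node x)
    (hcyc : ∀ x y, node x = node y → σ.SameCycle x y)
    (out : X → Prop) (hout : ∀ x, α x ≠ x → out x ∨ out (α x))
    (huniq : ∀ x y, out x → out y → node x = node y → x = y)
    (r : V → ι) (hr : ∀ x, out x → α x ≠ x → r (node x) < r (node (α x)))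
    (ψ : X → Prop) (hψ : ∀ x, ψ x ↔ ψ (σ (α x))) :
    (∀ x y, node x = node y → (ψ x ↔ ψ y)) ∧ (∀ x, ψ x ↔ ψ (α x)) := by
  classical
  have main : ∀ x y, node x = node y → (ψ x ↔ ψ y) := by
    let R : X → X → Prop := fun x y => r (node x) < r (node y)
    have hwf : WellFounded R := by
      have : IsTrans X R := ⟨fun a b c => lt_trans⟩
      have : Std.Irrefl R := ⟨fun a => lt_irrefl _⟩
      exact Finite.wellFounded_of_trans_of_irrefl R
    intro x
    induction x using hwf.induction with
    | _ x ih =>
      -- the values do not change along the node, except perhaps at the out dart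
      have hstep : ∀ y, node y = node x → ¬ out y → (ψ y ↔ ψ (σ y)) := by
        intro y hy hoy
        by_cases hf : α y = y
        · have := hψ y
          rw [hf] at this
          exact this
        · have ho : out (α y) := (hout y hf).resolve_left hoy
          have hf' : α (α y) ≠ α y := by rw [hα]; exact fun h => hf h.symm
          have hlt : r (node (α y)) < r (node x) := by
            have := hr (α y) ho hf'
            rw [hα, hy] at this
            exact this
          have h1 := ih (α y) hlt (σ (α y)) (hnode (α y)).symm
          have h2 := hψ (α y)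
          rw [hα] at h2
          rw [hψ y, ← h1, h2]
      intro y hxy
      by_cases hex : ∃ c, node c = node x ∧ out c
      · obtain ⟨c, hc, hoc⟩ := hex
        have hall : ∀ z, node z = node x → (ψ c ↔ ψ z) := by
          intro z hz
          apply const_on_cycle σ c ψ _ (hcyc c z (by rw [hc, hz]))
          intro w hw hwc
          have hnw : node w = node x := by
            rw [← hc]
            obtain ⟨k, hk⟩ := hw
            have : ∀ (k : ℤ) z, node ((σ ^ k) z) = node z := by
              intro k
              induction k using Int.induction_on with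
              | zero => intro z; rfl
              | succ i ih =>
                intro z
                rw [zpow_add_one, Equiv.Perm.mul_apply, ih, hnode]
              | pred i ih =>
                intro z
                rw [zpow_sub_one, Equiv.Perm.mul_apply, ih]
                have := hnode (σ⁻¹ z)
                rw [← this]
                simp
            rw [← hk, this]
          apply hstep w hnw
          intro how
          exact hwc (huniq w c how hoc (by rw [hnw, hc]))
        rw [← hall x rfl, ← hall y hxy.symm]
      · push Not at hex
        have hall : ∀ z, node z = node x → (ψ x ↔ ψ z) := by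
          intro z hz
          apply const_on_cycle σ x ψ _ (hcyc x z hz.symm)
          intro w hw _
          have hnw : node w = node x := by
            obtain ⟨k, hk⟩ := hw
            have : ∀ (k : ℤ) z, node ((σ ^ k) z) = node z := by
              intro k
              induction k using Int.induction_on with
              | zero => intro z; rfl
              | succ i ih =>
                intro z
                rw [zpow_add_one, Equiv.Perm.mul_apply, ih, hnode]
              | pred i ih =>
                intro z
                rw [zpow_sub_one, Equiv.Perm.mul_apply, ih]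
                have := hnode (σ⁻¹ z)
                rw [← this]
                simp
            rw [← hk, this]
          exact hstep w hnw (hex w hnw)
        exact hall y hxy.symm
  refine ⟨main, fun x => ?_⟩
  rw [hψ x]
  exact main _ _ (hnode (α x))

end Tree

end Pool.Agent.Helper48.UNF
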